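import Pool.Agent.W117.GS.Stm

/-! Project GS: gradient bound for `(K - Δ)⁻¹` on bounded functions. -/

set_option autoImplicit false

open MeasureTheory Filter Topology Set
open scoped Convolution

namespace Pool.Agent.W369.GS

open Pool.Agent.Helper676.CS

/-- continuity of the convolution of an integrable kernel with a bounded function -/
theorem cv_continuous {k : ℝ × ℝ → ℝ} (hk : Integrable k) {h : ℝ × ℝ → ℝ} (hm : Measurable h)
    {C : ℝ} (hC : ∀ y, |h y| ≤ C) : Continuous (cv k h) := by
  have hC0 : 0 ≤ C := (abs_nonneg _).trans (hC 0)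
  have hloc : LocallyIntegrable h := by
    have hl : LocallyIntegrable (fun _ : ℝ × ℝ => C) := continuous_const.locallyIntegrable
    refine hl.mono hm.aestronglyMeasurable (Eventually.of_forall fun y => ?_)
    rw [Real.norm_eq_abs, Real.norm_eq_abs, abs_of_nonneg hC0]
    exact hC y
  refine continuous_of_uniform_approx_of_continuous fun u hu => ?_
  obtain ⟨ε, hε, hεu⟩ := Metric.mem_uniformity_dist.1 hu
  obtain ⟨g, hgc, hg1, hg2, hg3⟩ := hk.exists_hasCompactSupport_integral_sub_le
    (ε := ε / (2 * (C + 1))) (by positivity)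
  refine ⟨cv g h, ?_, ?_⟩
  · have e : cv g h = (h ⋆[ContinuousLinearMap.mul ℝ ℝ, volume] g) := by
      ext x
      simp only [cv, convolution, ContinuousLinearMap.mul_apply']
      congr 1; ext y; ring
    rw [e]
    exact hgc.continuous_convolution_right _ hloc hg2
  · intro x
    apply hεu
    rw [Real.dist_eq]
    have e : cv k h x - cv g h x = cv (fun y => k y - g y) h x := by
      rw [cv, cv, cv, ← integral_sub (cv_integrable hk hm hC x) (cv_integrable hg3 hm hC x)]
      congr 1; ext y; ring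
    rw [e]
    have h1 := cv_abs_le (hk.sub hg3) hC x
    have h2 : (∫ y, |(k - g) y|) ≤ ε / (2 * (C + 1)) := hg1
    have h3 : ε / (2 * (C + 1)) * C < ε := by
      rw [div_mul_eq_mul_div, div_lt_iff₀ (by positivity)]
      nlinarith
    calc |cv (fun y => k y - g y) h x| ≤ (∫ y, |(k - g) y|) * C := h1
      _ ≤ ε / (2 * (C + 1)) * C := mul_le_mul_of_nonneg_right h2 hC0
      _ < ε := h3

/-- linearity of the kernel in the direction -/
theorem Dk_lin {K : ℝ} (hK : 0 < K) (v : ℝ × ℝ) : Dk K v =ᵐ[volume]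
    fun z => v.1 * Dk K (1, 0) z + v.2 * Dk K (0, 1) z := by
  filter_upwards [(integrable_ke hK (1, 0)).prod_left_ae, (integrable_ke hK (0, 1)).prod_left_ae]
    with z h1 h2
  unfold Dk
  rw [← integral_const_mul, ← integral_const_mul, ← integral_add (h1.const_mul _) (h2.const_mul _)]
  congr 1
  ext t
  simp only [ke, pe]
  ring

theorem cv_Dk_lin {K : ℝ} (hK : 0 < K) (v : ℝ × ℝ) {h : ℝ × ℝ → ℝ} (hm : Measurable h)
    {C : ℝ} (hC : ∀ y, |h y| ≤ C) (x : ℝ × ℝ) :
    cv (Dk K v) h x = v.1 * cv (Dk K (1, 0)) h x + v.2 * cv (Dk K (0, 1)) h x := by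
  have h1 : Integrable fun y => Dk K (1, 0) y * h (x - y) := by
    have := (cv_integrable (integrable_Dk hK (1, 0)) hm hC x).comp_sub_left x
    simpa using this
  have h2 : Integrable fun y => Dk K (0, 1) y * h (x - y) := by
    have := (cv_integrable (integrable_Dk hK (0, 1)) hm hC x).comp_sub_left x
    simpa using this
  rw [cv_eq, cv_eq, cv_eq, ← integral_const_mul, ← integral_const_mul,
    ← integral_add (h1.const_mul _) (h2.const_mul _)]
  apply integral_congr_ae
  filter_upwards [Dk_lin hK v] with z hz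
  rw [hz]
  ring

/-- a convolution as an integral over space-time -/
theorem cv_time {k : ℝ × (ℝ × ℝ) → ℝ} (hk : Integrable k (nu.prod volume)) {h : ℝ × ℝ → ℝ}
    (hm : Measurable h) {C : ℝ} (hC : ∀ y, |h y| ≤ C) (x : ℝ × ℝ) :
    cv (fun z => ∫ t, k (t, z) ∂nu) h x = ∫ q, k (q.1, x - q.2) * h q.2 ∂(nu.prod volume) := by
  rw [integral_prod _ (fub_integrable hk hm hC x)]
  exact fub hk hm hC x

theorem ftc {t : ℝ} (ht : 0 < t) (z v : ℝ × ℝ) :
    ∫ s in (0:ℝ)..1, pe v t (z + s • v) = p t (z + v) - p t z := by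
  have h1 : ∀ s : ℝ, HasDerivAt (fun s : ℝ => p t (z + s • v)) (pe v t (z + s • v)) s := by
    intro s
    have h2 : HasDerivAt (fun s : ℝ => z + s • v) v s := by
      have := ((hasDerivAt_id s).smul_const v).const_add z
      simpa using this
    have h3 : HasFDerivAt (p t) (fderiv ℝ (p t) (z + s • v)) (z + s • v) :=
      ((contDiff_p t (n := 1)).differentiable (by norm_num) _).hasFDerivAt
    have h4 := h3.comp_hasDerivAt s h2
    refine h4.congr_deriv ?_
    exact dd_p ht v (z + s • v)
  have hc : Continuous fun s : ℝ => pe v t (z + s • v) := by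
    unfold pe p
    fun_prop
  rw [intervalIntegral.integral_eq_sub_of_hasDerivAt (fun s _ => h1 s) (hc.intervalIntegrable _ _)]
  simp

/-- increments of `(K - Δ)⁻¹ h` -/
theorem incr {K : ℝ} (hK : 0 < K) {h : ℝ × ℝ → ℝ} (hm : Measurable h)
    {C : ℝ} (hC : ∀ y, |h y| ≤ C) (x v : ℝ × ℝ) :
    Gc K h (x + v) - Gc K h x = ∫ s in (0:ℝ)..1, cv (Dk K v) h (x + s • v) := by
  have hC0 : 0 ≤ C := (abs_nonneg _).trans (hC 0)
  set F : ℝ → ℝ × (ℝ × ℝ) → ℝ := fun s q => ke K v (q.1, x + s • v - q.2) * h q.2 with hF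
  have hFm : Measurable (Function.uncurry F) := by
    have g1 : Measurable fun r : ℝ × (ℝ × (ℝ × ℝ)) => (r.2.1, x + r.1 • v - r.2.2) := by
      fun_prop
    exact ((measurable_ke K v).comp g1).mul (hm.comp (measurable_snd.comp measurable_snd))
  have hki := integrable_ke hK v
  have hFi : Integrable (Function.uncurry F) ((volume.restrict (Ioc (0:ℝ) 1)).prod
      (nu.prod volume)) := by
    rw [integrable_prod_iff hFm.aestronglyMeasurable]
    constructor
    · exact Eventually.of_forall fun s => fub_integrable hki hm hC (x + s • v)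
    · have hb : ∀ s : ℝ, ‖∫ q, ‖Function.uncurry F (s, q)‖ ∂(nu.prod volume)‖ ≤
          (∫ q, ‖ke K v q‖ ∂(nu.prod volume)) * C := by
        intro s
        rw [Real.norm_of_nonneg (integral_nonneg fun _ => norm_nonneg _)]
        have hmp : MeasurePreserving (Prod.map (id : ℝ → ℝ) (fun y : ℝ × ℝ => x + s • v - y))
            (nu.prod volume) (nu.prod volume) :=
          (MeasurePreserving.id nu).prod (Measure.measurePreserving_sub_left volume (x + s • v))
        have h1 : Integrable (fun q : ℝ × (ℝ × ℝ) => ‖ke K v (q.1, x + s • v - q.2)‖)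
            (nu.prod volume) := (hmp.integrable_comp_of_integrable hki).norm
        have h2 : ∫ q, ‖ke K v (q.1, x + s • v - q.2)‖ ∂(nu.prod volume) =
            ∫ q, ‖ke K v q‖ ∂(nu.prod volume) := by
          have hme : MeasurableEmbedding
              (Prod.map (id : ℝ → ℝ) (fun y : ℝ × ℝ => x + s • v - y)) := by
            have := ((MeasurableEquiv.refl ℝ).prodCongr
              (MeasurableEquiv.subLeft (x + s • v))).measurableEmbedding
            exact this
          exact hmp.integral_comp hme (fun q => ‖ke K v q‖)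
        rw [← h2, ← integral_mul_const]
        refine integral_mono_of_nonneg (Eventually.of_forall fun _ => norm_nonneg _)
          (h1.mul_const _) (Eventually.of_forall fun q => ?_)
        simp only [Function.uncurry, hF, norm_mul]
        exact mul_le_mul_of_nonneg_left (hC _) (norm_nonneg _)
      refine Integrable.of_bound ?_ _ (Eventually.of_forall hb)
      exact (hFm.norm.stronglyMeasurable.integral_prod_right' (ν := nu.prod volume)).aestronglyMeasurable
  have e1 : ∫ s in (0:ℝ)..1, cv (Dk K v) h (x + s • v) =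
      ∫ s, (∫ q, F s q ∂(nu.prod volume)) ∂(volume.restrict (Ioc (0:ℝ) 1)) := by
    rw [intervalIntegral.integral_of_le zero_le_one]
    congr 1
    ext s
    exact cv_time hki hm hC (x + s • v)
  rw [e1, integral_integral_swap hFi]
  have e2 : ∀ᵐ q ∂(nu.prod (volume : Measure (ℝ × ℝ))),
      ∫ s, F s q ∂(volume.restrict (Ioc (0:ℝ) 1)) =
      kk K (q.1, x + v - q.2) * h q.2 - kk K (q.1, x - q.2) * h q.2 := by
    have hae : ∀ᵐ q : ℝ × (ℝ × ℝ) ∂(nu.prod volume), 0 < q.1 :=
      (Measure.quasiMeasurePreserving_fst (μ := nu) (ν := (volume : Measure (ℝ × ℝ)))).ae ae_nu_pos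
    filter_upwards [hae] with q hq
    have e3 := ftc hq (x - q.2) v
    rw [intervalIntegral.integral_of_le zero_le_one] at e3
    have e4 : ∀ s, F s q = (Real.exp (-K * q.1) * h q.2) * pe v q.1 (x - q.2 + s • v) := by
      intro s
      simp only [hF, ke]
      rw [show x + s • v - q.2 = x - q.2 + s • v by abel]
      ring
    simp_rw [e4]
    rw [integral_const_mul, e3]
    simp only [kk]
    rw [show x + v - q.2 = x - q.2 + v by abel]
    ring
  rw [integral_congr_ae e2, integral_sub (fub_integrable (integrable_kk hK) hm hC (x + v))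
    (fub_integrable (integrable_kk hK) hm hC x), ← cv_time (integrable_kk hK) hm hC (x + v),
    ← cv_time (integrable_kk hK) hm hC x]
  rfl

/-- the gradient -/
noncomputable def LL (K : ℝ) (h : ℝ × ℝ → ℝ) (x : ℝ × ℝ) : ℝ × ℝ →L[ℝ] ℝ :=
  cv (Dk K (1, 0)) h x • ContinuousLinearMap.fst ℝ ℝ ℝ +
    cv (Dk K (0, 1)) h x • ContinuousLinearMap.snd ℝ ℝ ℝ

theorem LL_apply {K : ℝ} (hK : 0 < K) {h : ℝ × ℝ → ℝ} (hm : Measurable h)
    {C : ℝ} (hC : ∀ y, |h y| ≤ C) (x v : ℝ × ℝ) : LL K h x v = cv (Dk K v) h x := by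
  rw [cv_Dk_lin hK v hm hC x]
  simp [LL]
  ring

theorem LL_continuous {K : ℝ} (hK : 0 < K) {h : ℝ × ℝ → ℝ} (hm : Measurable h)
    {C : ℝ} (hC : ∀ y, |h y| ≤ C) : Continuous (LL K h) := by
  have h1 := cv_continuous (integrable_Dk hK (1, 0)) hm hC
  have h2 := cv_continuous (integrable_Dk hK (0, 1)) hm hC
  unfold LL
  exact (h1.smul continuous_const).add (h2.smul continuous_const)

theorem hasFDerivAt_Gc {K : ℝ} (hK : 0 < K) {h : ℝ × ℝ → ℝ} (hm : Measurable h)
    {C : ℝ} (hC : ∀ y, |h y| ≤ C) (x : ℝ × ℝ) : HasFDerivAt (Gc K h) (LL K h x) x := by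
  rw [hasFDerivAt_iff_isLittleO_nhds_zero, Asymptotics.isLittleO_iff]
  intro ε hε
  have hcont := (LL_continuous hK hm hC).continuousAt (x := x)
  obtain ⟨δ, hδ, hball⟩ := Metric.continuousAt_iff.1 hcont ε hε
  filter_upwards [Metric.ball_mem_nhds (0 : ℝ × ℝ) hδ] with v hv
  have hv' : ‖v‖ < δ := by simpa using hv
  have hci : Continuous fun s : ℝ => LL K h (x + s • v) v :=
    ((LL_continuous hK hm hC).comp (by fun_prop)).clm_apply continuous_const
  have e1 : Gc K h (x + v) - Gc K h x - LL K h x v =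
      ∫ s in (0:ℝ)..1, (LL K h (x + s • v) v - LL K h x v) := by
    rw [incr hK hm hC, intervalIntegral.integral_sub (hci.intervalIntegrable _ _)
      (continuous_const.intervalIntegrable _ _), intervalIntegral.integral_const]
    simp only [sub_zero, one_smul]
    congr 2
    ext s
    exact (LL_apply hK hm hC _ _).symm
  rw [e1]
  have h1 := intervalIntegral.norm_integral_le_of_norm_le_const (a := (0:ℝ)) (b := 1)
    (f := fun s => LL K h (x + s • v) v - LL K h x v) (C := ε * ‖v‖) (by
      intro s hs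
      rw [uIoc_of_le zero_le_one] at hs
      rw [← ContinuousLinearMap.sub_apply]
      refine (ContinuousLinearMap.le_opNorm _ _).trans (mul_le_mul_of_nonneg_right ?_ (norm_nonneg _))
      have h2 : dist (x + s • v) x < δ := by
        rw [dist_eq_norm, add_sub_cancel_left, norm_smul, Real.norm_of_nonneg hs.1.le]
        calc s * ‖v‖ ≤ 1 * ‖v‖ := mul_le_mul_of_nonneg_right hs.2 (norm_nonneg _)
          _ < δ := by rw [one_mul]; exact hv'
      have h3 := hball h2
      rw [dist_eq_norm] at h3
      exact h3.le)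
  simpa using h1

theorem main : Pool.Agent.W117.GS.PropG1 := by
  intro K C h hK hm hC
  have hC0 : 0 ≤ C := (abs_nonneg _).trans (hC 0)
  constructor
  · have : ContDiff ℝ 1 (Gc K h) := contDiff_one_iff_hasFDerivAt.2
      ⟨LL K h, LL_continuous hK hm hC, hasFDerivAt_Gc hK hm hC⟩
    exact_mod_cast this
  · intro i hi
    rcases Nat.le_one_iff_eq_zero_or_eq_one.1 hi with rfl | rfl
    · refine ⟨(∫ y, |G K y|) * C, fun x => ?_⟩
      rw [norm_iteratedFDeriv_zero, Real.norm_eq_abs]
      exact cv_abs_le (integrable_G hK) hC x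
    · refine ⟨(∫ y, |Dk K (1, 0) y|) * C * ‖ContinuousLinearMap.fst ℝ ℝ ℝ‖ +
        (∫ y, |Dk K (0, 1) y|) * C * ‖ContinuousLinearMap.snd ℝ ℝ ℝ‖, fun x => ?_⟩
      rw [norm_iteratedFDeriv_one, (hasFDerivAt_Gc hK hm hC x).fderiv]
      unfold LL
      refine (norm_add_le _ _).trans (add_le_add ?_ ?_)
      · rw [norm_smul]
        exact mul_le_mul_of_nonneg_right (cv_abs_le (integrable_Dk hK _) hC x) (norm_nonneg _)
      · rw [norm_smul]
        exact mul_le_mul_of_nonneg_right (cv_abs_le (integrable_Dk hK _) hC x) (norm_nonneg _)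

end Pool.Agent.W369.GS
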